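import Pool.Agent.Y451.FM.Stm

/-!
# Translation to the statement of the problem
-/

set_option autoImplicit false
set_option linter.unusedSectionVars false

open MeasureTheory

noncomputable section

namespace Pool.Agent.Y473.FMF

open Pool.Agent.Y451.FM

/-- The free part as a set. -/
def FS (n : ℕ) : Set (Om n) := {x | ∀ g : Gp n, (fun h => x (h + g)) = x → g = 0}

theorem meas_eval_eq {n : ℕ} (a b : Gp n) : MeasurableSet {x : Om n | x a = x b} := by
  have h : {x : Om n | x a = x b} = {x : Om n | ((x a : unitInterval) : ℝ) = (x b : ℝ)} := by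
    ext x
    exact Subtype.ext_iff
  rw [h]
  exact measurableSet_eq_fun (measurable_subtype_coe.comp (measurable_pi_apply a))
    (measurable_subtype_coe.comp (measurable_pi_apply b))

theorem FS_eq (n : ℕ) : FS n = ⋂ g ∈ {g : Gp n | g ≠ 0}, (⋂ h : Gp n, {x | x (h + g) = x h})ᶜ := by
  ext x
  simp only [FS, Set.mem_ofPred_eq, Set.mem_iInter, Set.mem_compl_iff, not_forall]
  constructor
  · intro h g hg
    by_contra hcon
    push Not at hcon
    exact hg (h g (funext hcon))
  · intro h g hg
    by_contra hcon
    obtain ⟨v, hv⟩ := h g hcon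
    exact hv (congrFun hg v)

theorem meas_FS (n : ℕ) : MeasurableSet (FS n) := by
  rw [FS_eq]
  refine MeasurableSet.biInter (Set.to_countable _) fun g _ => ?_
  exact (MeasurableSet.iInter fun h => meas_eval_eq _ _).compl

theorem null_eq {n : ℕ} {g : Gp n} (hg : g ≠ 0) : (PP n) {x : Om n | x g = x 0} = 0 := by
  have h1 : MeasurableSet {p : unitInterval × unitInterval | p.1 = p.2} := by
    have h : {p : unitInterval × unitInterval | p.1 = p.2} =
        {p | ((p.1 : unitInterval) : ℝ) = (p.2 : ℝ)} := by
      ext x
      exact Subtype.ext_iff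
    rw [h]
    exact measurableSet_eq_fun (measurable_subtype_coe.comp measurable_fst)
      (measurable_subtype_coe.comp measurable_snd)
  have h2 : (PP n).map (fun ω : Om n => (ω g, ω 0)) =
      (volume : Measure unitInterval).prod volume :=
    Measure.infinitePi_map_eval_prod hg
  have h3 : (PP n) {x : Om n | x g = x 0} =
      (PP n).map (fun ω : Om n => (ω g, ω 0)) {p | p.1 = p.2} := by
    rw [Measure.map_apply (by fun_prop) h1]
    rfl
  rw [h3, h2, Measure.measure_prod_null h1]
  refine Filter.Eventually.of_forall fun x => ?_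
  show (volume : Measure unitInterval) {y | x = y} = 0
  have h4 : {y : unitInterval | x = y} = {x} := by
    ext y
    exact eq_comm
  rw [h4]
  exact measure_singleton x

theorem null_FS (n : ℕ) : (PP n) (FS n)ᶜ = 0 := by
  rw [FS_eq, Set.compl_iInter₂, measure_biUnion_null_iff (Set.to_countable _)]
  intro g hg
  refine measure_mono_null ?_ (null_eq hg)
  intro x hx
  rw [compl_compl] at hx
  have h : x (0 + g) = x 0 := Set.mem_iInter.1 hx 0
  rw [zero_add] at h
  exact h

theorem emb (n : ℕ) : MeasurableEmbedding (Subtype.val : Free n → Om n) :=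
  MeasurableEmbedding.subtype_coe (meas_FS n)

theorem range_val (n : ℕ) : Set.range (Subtype.val : Free n → Om n) = FS n :=
  Subtype.range_coe

theorem prob (n : ℕ) : IsProbabilityMeasure
    (Measure.comap (Subtype.val : Free n → Om n) (PP n)) := by
  constructor
  rw [(emb n).comap_apply, Set.image_univ, range_val]
  have h := prob_compl_eq_zero_iff (μ := PP n) (meas_FS n)
  exact h.1 (null_FS n)

theorem act (n : ℕ) : Act n (Free n) shF where
  zero := by
    intro x
    apply Subtype.ext
    funext h
    show x.1 (h + 0) = x.1 h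
    rw [add_zero]
  add := by
    intro g h x
    apply Subtype.ext
    funext v
    show x.1 (v + (g + h)) = x.1 (v + g + h)
    rw [add_assoc]
  meas := by
    intro g
    refine Measurable.subtype_mk ?_
    refine measurable_pi_lambda _ fun v => ?_
    exact (measurable_pi_apply _).comp measurable_subtype_coe
  free := by
    intro g x h
    exact x.2 g (congrArg Subtype.val h)

theorem std (n : ℕ) : StandardBorelSpace (Free n) := (meas_FS n).standardBorel

theorem done : S_FIN := by
  intro hST hLIM hPRD n k r P
  obtain ⟨_, hPR, _⟩ := hPRD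
  constructor
  · rintro ⟨f0, hf0, hae⟩ X _ _ a ha0 hadd hmeas hfree μ _
    have hae' : ∀ᵐ x ∂(Measure.comap (Subtype.val : Free n → Om n) (PP n)),
      (fun g : {g : Fin n → ℤ // ∀ i, |g i| ≤ (r : ℤ)} => f0 (shF g.1 x)) ∈ P := hae
    have hprob := prob n
    have hne : Nonempty (Free n) := by
      by_contra hcon
      rw [not_nonempty_iff] at hcon
      have h1 := hprob.measure_univ
      rw [Set.univ_eq_empty_iff.2 hcon, measure_empty] at h1
      exact zero_ne_one h1
    obtain ⟨x0⟩ := hne
    obtain ⟨F, hF, hFf⟩ := (emb n).exists_measurable_extend hf0 (fun _ => ⟨f0 x0⟩)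
    have hFv : ∀ x : Free n, F x.1 = f0 x := fun x => congrFun hFf x
    let Pr : (Gp n → Fin k) → Prop := fun w =>
      (fun g : {g : Fin n → ℤ // ∀ i, |g i| ≤ (r : ℤ)} => w g.1) ∈ P
    have hloc : LocP n k r Pr := by
      intro w w' h hw
      have h1 : (fun g : {g : Fin n → ℤ // ∀ i, |g i| ≤ (r : ℤ)} => w g.1) =
          fun g : {g : Fin n → ℤ // ∀ i, |g i| ≤ (r : ℤ)} => w' g.1 := by
        funext g
        exact h g.1 (mem_B.2 g.2)
      show (fun g : {g : Fin n → ℤ // ∀ i, |g i| ≤ (r : ℤ)} => w' g.1) ∈ P
      rw [← h1]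
      exact hw
    have hone : ∀ᵐ b ∂PP n, Pr (sg F b) := by
      rw [ae_iff] at hae' ⊢
      rw [(emb n).comap_apply] at hae'
      refine measure_mono_null ?_ (measure_union_null (null_FS n) hae')
      intro b hb
      by_cases hbF : b ∈ FS n
      · right
        refine ⟨⟨b, hbF⟩, ?_, rfl⟩
        intro hP
        apply hb
        show (fun g : {g : Fin n → ℤ // ∀ i, |g i| ≤ (r : ℤ)} => F (sh g.1 b)) ∈ P
        have h2 : (fun g : {g : Fin n → ℤ // ∀ i, |g i| ≤ (r : ℤ)} => F (sh g.1 b)) =
            fun g : {g : Fin n → ℤ // ∀ i, |g i| ≤ (r : ℤ)} => f0 (shF g.1 ⟨b, hbF⟩) := by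
          funext g
          exact hFv (shF g.1 ⟨b, hbF⟩)
        rw [h2]
        exact hP
      · left
        exact hbF
    have hSol : ∀ᵐ b ∂PP n, Sol Pr (sg F b) := by
      have hall : ∀ g : Gp n, ∀ᵐ b ∂PP n, Pr (sh g (sg F b)) := by
        intro g
        have h3 := (hPR n g).quasiMeasurePreserving.ae hone
        filter_upwards [h3] with b hb
        have h4 : sh g (sg F b) = sg F (sh g b) := by
          funext v
          show F (sh (v + g) b) = F (sh v (sh g b))
          congr 1
          funext h
          show b (h + (v + g)) = b (h + v + g)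
          rw [add_assoc]
        rw [h4]
        exact hb
      exact ae_all_iff.2 hall
    obtain ⟨f, hf, hfae⟩ := hLIM hST n k r Pr hloc F hF hSol X a ⟨ha0, hadd, hmeas, hfree⟩ μ
    exact ⟨f, hf, hfae⟩
  · intro h
    have h1 := std n
    have h2 := prob n
    have h3 := act n
    exact h (Free n) shF h3.zero h3.add h3.meas h3.free
      (Measure.comap (Subtype.val : Free n → Om n) (PP n))

end Pool.Agent.Y473.FMF

end
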